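import Pool.Agent.H.MP_e9a110_co.E
set_option autoImplicit false
open MeasureTheory
namespace Pool.Agent.Results.MP_40f41c_co.Tri

theorem result : ∀ ε : ℝ, 0 < ε → ∃ δ : ℝ, 0 < δ ∧
    ∀ S : Set (ℝ × ℝ), NullMeasurableSet S volume → 0 < volume S → volume S < ⊤ →
      NullMeasurableSet {p : (ℝ × ℝ) × (ℝ × ℝ) | segment ℝ p.1 p.2 ⊆ S} volume →
      ENNReal.ofReal ε * volume S ^ 2 ≤ volume {p : (ℝ × ℝ) × (ℝ × ℝ) | segment ℝ p.1 p.2 ⊆ S} →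
      ∃ p q r : ℝ × ℝ, ¬Collinear ℝ {p, q, r} ∧
        ENNReal.ofReal δ * volume S ≤ volume (convexHull ℝ {p, q, r}) ∧
        frontier (convexHull ℝ {p, q, r}) ⊆ S :=
  Pool.Agent.H.MP_e9a110_co.main'

end Pool.Agent.Results.MP_40f41c_co.Tri
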